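import Mathlib

set_option autoImplicit false

/-!
# MP_4f9fa7_an, Q1: the equality of the lower moduli fails for every `ε > 0`
-/

namespace Pool.Agent.Results.MP_4f9fa7_an.LowerModulusFails

section defs

variable (X : Type*) [NormedAddCommGroup X] [NormedSpace ℝ X]

/-- `y ⊥ x`: some norm-one functional `p` with `p x = 1` satisfies `p y = 0`. -/
def QuasiOrth {X : Type*} [NormedAddCommGroup X] [NormedSpace ℝ X] (y x : X) : Prop :=
  ∃ p : X →L[ℝ] ℝ, ‖p‖ = 1 ∧ p x = 1 ∧ p y = 0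

/-- The modulus `ζ⁻`. -/
noncomputable def zetaMinus (ε : ℝ) : ℝ :=
  sInf {t | ∃ x y : X, ‖x‖ = 1 ∧ ‖y‖ = 1 ∧ QuasiOrth y x ∧ t = ‖x + ε • y‖}

/-- The modulus `ζ⁺`. -/
noncomputable def zetaPlus (ε : ℝ) : ℝ :=
  sSup {t | ∃ x y : X, ‖x‖ = 1 ∧ ‖y‖ = 1 ∧ QuasiOrth y x ∧ t = ‖x + ε • y‖}

/-- Milman's modulus `β⁻`. -/
noncomputable def betaMinus (ε : ℝ) : ℝ :=
  sInf {t | ∃ x y : X, ‖x‖ = 1 ∧ ‖y‖ = 1 ∧ t = max ‖x + ε • y‖ ‖x - ε • y‖ - 1}

/-- Milman's modulus `β⁺`. -/
noncomputable def betaPlus (ε : ℝ) : ℝ :=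
  sSup {t | ∃ x y : X, ‖x‖ = 1 ∧ ‖y‖ = 1 ∧ t = min ‖x + ε • y‖ ‖x - ε • y‖ - 1}

end defs

lemma zetaMinus_le {X : Type*} [NormedAddCommGroup X] [NormedSpace ℝ X] (ε : ℝ) (x y : X)
    (hx : ‖x‖ = 1) (hy : ‖y‖ = 1) (hxy : QuasiOrth y x) : zetaMinus X ε ≤ ‖x + ε • y‖ := by
  apply csInf_le
  · refine ⟨0, ?_⟩
    rintro t ⟨x, y, -, -, -, rfl⟩
    exact norm_nonneg _
  · exact ⟨x, y, hx, hy, hxy, rfl⟩

/-- Large `ε`: the space `ℓ_∞²`. -/
lemma large (ε : ℝ) (hε : 1 < ε) : zetaMinus (ℝ × ℝ) ε - 1 < betaMinus (ℝ × ℝ) ε := by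
  have h1 : zetaMinus (ℝ × ℝ) ε ≤ ‖((1, 1) : ℝ × ℝ) + ε • ((0, -1) : ℝ × ℝ)‖ := by
    apply zetaMinus_le
    · simp [Prod.norm_def]
    · simp [Prod.norm_def]
    · refine ⟨ContinuousLinearMap.fst ℝ ℝ ℝ, ?_, rfl, rfl⟩
      apply le_antisymm (ContinuousLinearMap.norm_fst_le ℝ ℝ ℝ)
      have := (ContinuousLinearMap.fst ℝ ℝ ℝ).le_opNorm ((1, 1) : ℝ × ℝ)
      simpa [Prod.norm_def] using this
  have h2 : ‖((1, 1) : ℝ × ℝ) + ε • ((0, -1) : ℝ × ℝ)‖ < ε := by
    rw [Prod.norm_def]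
    simp only [Prod.smul_mk, Prod.mk_add_mk, smul_eq_mul, mul_zero, add_zero, mul_neg, mul_one,
      norm_one, Real.norm_eq_abs]
    apply max_lt hε
    rw [abs_lt]; constructor <;> linarith
  have h3 : ε - 1 ≤ betaMinus (ℝ × ℝ) ε := by
    apply le_csInf
    · exact ⟨_, (1, 1), (1, 1), by simp [Prod.norm_def], by simp [Prod.norm_def], rfl⟩
    · rintro t ⟨x, y, hx, hy, rfl⟩
      have h4 : ‖(2 * ε) • y‖ ≤ ‖x + ε • y‖ + ‖x - ε • y‖ := by
        have e : (2 * ε) • y = (x + ε • y) - (x - ε • y) := by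
          rw [two_mul, add_smul]; abel
        rw [e]
        exact norm_sub_le _ _
      rw [norm_smul, hy, Real.norm_of_nonneg (by linarith), mul_one] at h4
      have h5 := le_max_left ‖x + ε • y‖ ‖x - ε • y‖
      have h6 := le_max_right ‖x + ε • y‖ ‖x - ε • y‖
      linarith
  linarith

section small

/-- The linear map `z ↦ (r Re z, z)`, which induces the norm `max (r |Re z|) |z|` on `ℂ = ℝ²`. -/
noncomputable def T (r : ℝ) : ℂ →ₗ[ℝ] ℝ × ℂ where
  toFun z := (r * z.re, z)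
  map_add' x y := by ext <;> simp [mul_add]
  map_smul' c x := by
    ext
    · simp only [Complex.real_smul, Complex.re_ofReal_mul, RingHom.id_apply, Prod.smul_mk,
        smul_eq_mul]; ring
    · simp

/-- The two-dimensional space. -/
abbrev V (r : ℝ) : Type := LinearMap.range (T r)

/-- The vector of `V r` with parameter `z`. -/
noncomputable def v (r : ℝ) (z : ℂ) : V r := ⟨T r z, z, rfl⟩

lemma norm_v (r : ℝ) (hr : 0 ≤ r) (z : ℂ) : ‖v r z‖ = max (r * |z.re|) ‖z‖ := by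
  change ‖T r z‖ = _
  change ‖((r * z.re, z) : ℝ × ℂ)‖ = _
  rw [Prod.norm_def, Real.norm_eq_abs, abs_mul, abs_of_nonneg hr]

lemma v_add (r : ℝ) (z w : ℂ) : v r z + v r w = v r (z + w) := by
  apply Subtype.ext
  exact (map_add (T r) z w).symm

lemma v_sub (r : ℝ) (z w : ℂ) : v r z - v r w = v r (z - w) := by
  apply Subtype.ext
  exact (map_sub (T r) z w).symm

lemma v_smul (r : ℝ) (c : ℝ) (z : ℂ) : c • v r z = v r (c • z) := by
  apply Subtype.ext
  exact (map_smul (T r) c z).symm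

lemma v_surj (r : ℝ) (x : V r) : ∃ z, x = v r z := by
  obtain ⟨_, z, rfl⟩ := x
  exact ⟨z, rfl⟩

lemma finrank_V (r : ℝ) : Module.finrank ℝ (V r) = 2 := by
  have hinj : Function.Injective (T r) := by
    intro x y h
    exact congrArg Prod.snd h
  rw [← (LinearEquiv.ofInjective (T r) hinj).finrank_eq]
  exact Complex.finrank_real_complex

/-- If `r > 1` and `ε > 0` with `r² ε² > r² - 1`, no segment of half-length `ε` centred at a point
of the unit sphere of `V r` is contained in the unit ball. -/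
lemma no_segment (r ε : ℝ) (hr : 1 < r) (hε : 0 < ε) (hre : r ^ 2 - 1 < r ^ 2 * ε ^ 2) (x y : V r)
    (hx : ‖x‖ = 1) (hy : ‖y‖ = 1) : 1 < max ‖x + ε • y‖ ‖x - ε • y‖ := by
  obtain ⟨z, rfl⟩ := v_surj r x
  obtain ⟨w, rfl⟩ := v_surj r y
  by_contra hcon
  push Not at hcon
  have hr0 : (0 : ℝ) ≤ r := by linarith
  rw [v_smul, v_add, v_sub, norm_v r hr0, norm_v r hr0] at hcon
  rw [norm_v r hr0] at hx hy
  obtain ⟨h1, h2⟩ := max_le_iff.1 hcon
  obtain ⟨h3, h4⟩ := max_le_iff.1 h1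
  obtain ⟨h5, h6⟩ := max_le_iff.1 h2
  have hsq : ∀ u : ℂ, ‖u‖ ^ 2 = u.re ^ 2 + u.im ^ 2 := by
    intro u
    rw [← Complex.normSq_eq_norm_sq, Complex.normSq_apply]; ring
  have h4' : ‖z + ε • w‖ ^ 2 ≤ 1 := pow_le_one₀ (norm_nonneg _) h4
  have h6' : ‖z - ε • w‖ ^ 2 ≤ 1 := pow_le_one₀ (norm_nonneg _) h6
  rw [hsq] at h4' h6'
  simp only [Complex.add_re, Complex.sub_re, Complex.add_im, Complex.sub_im, Complex.real_smul,
    Complex.re_ofReal_mul, Complex.im_ofReal_mul] at h3 h4' h5 h6'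
  set a := z.re
  set b := z.im
  set c := w.re
  set d := w.im
  -- the parallelogram identity
  have h7 : a ^ 2 + b ^ 2 + ε ^ 2 * (c ^ 2 + d ^ 2) ≤ 1 := by nlinarith
  have hw : r ^ 2 * (c ^ 2 + d ^ 2) ≥ 1 := by
    have h8 : 1 ≤ r * ‖w‖ := by
      rw [← hy]
      apply max_le
      · exact mul_le_mul_of_nonneg_left (Complex.abs_re_le_norm w) hr0
      · nlinarith [norm_nonneg w]
    have h9 : 1 ≤ (r * ‖w‖) ^ 2 := one_le_pow₀ h8
    rw [mul_pow, hsq] at h9
    exact h9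
  rcases max_choice (r * |a|) ‖z‖ with h | h
  · rw [h] at hx
    -- `r |a| = 1`, so `c = 0`
    have h10 : r * |a + ε * c| ≤ 1 := h3
    have h11 : r * |a - ε * c| ≤ 1 := h5
    have h12 : r * |a + ε * c| + r * |a - ε * c| ≤ 2 := by linarith
    have h13 : |a| + |ε * c| ≤ max |a + ε * c| |a - ε * c| := by
      rcases le_total 0 a with ha | ha <;> rcases le_total 0 (ε * c) with hc | hc
      · rw [abs_of_nonneg ha, abs_of_nonneg hc]
        exact le_max_of_le_left (le_abs_self _)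
      · rw [abs_of_nonneg ha, abs_of_nonpos hc]
        refine le_max_of_le_right (le_trans ?_ (le_abs_self _))
        linarith
      · rw [abs_of_nonpos ha, abs_of_nonneg hc]
        refine le_max_of_le_right (le_trans ?_ (neg_le_abs _))
        linarith
      · rw [abs_of_nonpos ha, abs_of_nonpos hc]
        refine le_max_of_le_left (le_trans ?_ (neg_le_abs _))
        linarith
    have h14 : r * (|a| + |ε * c|) ≤ 1 := by
      rcases max_choice |a + ε * c| |a - ε * c| with h' | h'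
      · rw [h'] at h13
        exact (mul_le_mul_of_nonneg_left h13 hr0).trans h10
      · rw [h'] at h13
        exact (mul_le_mul_of_nonneg_left h13 hr0).trans h11
    have h15 : |ε * c| = 0 := by
      have h16 : r * |ε * c| ≤ 0 := by linarith
      have h17 := abs_nonneg (ε * c)
      nlinarith
    have hc0 : c = 0 := by
      rw [abs_eq_zero] at h15
      rcases mul_eq_zero.1 h15 with h' | h'
      · exact absurd h' hε.ne'
      · exact h'
    -- then `|d| = 1`
    have hd : d ^ 2 = 1 := by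
      have h18 : ‖w‖ = 1 := by
        rw [hc0, abs_zero, mul_zero, max_eq_right (norm_nonneg _)] at hy
        exact hy
      have h19 := hsq w
      change ‖w‖ ^ 2 = c ^ 2 + d ^ 2 at h19
      rw [h18, hc0] at h19
      linarith
    have h20 : r ^ 2 * a ^ 2 = 1 := by
      have : (r * |a|) ^ 2 = 1 := by rw [hx]; norm_num
      rwa [mul_pow, sq_abs] at this
    rw [hc0, hd] at h7
    nlinarith [sq_nonneg b, sq_nonneg r]
  · rw [h] at hx
    have h21 : a ^ 2 + b ^ 2 = 1 := by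
      have := hsq z
      rw [hx] at this
      change (1 : ℝ) ^ 2 = a ^ 2 + b ^ 2 at this
      linarith
    have h22 : 0 < c ^ 2 + d ^ 2 := by
      by_contra h'
      push Not at h'
      have : r ^ 2 * (c ^ 2 + d ^ 2) ≤ 0 := mul_nonpos_of_nonneg_of_nonpos (sq_nonneg r) h'
      linarith
    have h23 : 0 < ε ^ 2 * (c ^ 2 + d ^ 2) := by positivity
    linarith

/-- Small `ε`. -/
lemma small (ε : ℝ) (hε : 0 < ε) (hε1 : ε ≤ 1) : ∃ r : ℝ, zetaMinus (V r) ε - 1 < betaMinus (V r) ε := by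
  -- `r² = 4 / (4 - ε²)`
  let r : ℝ := Real.sqrt (4 / (4 - ε ^ 2))
  have h4 : 0 < 4 - ε ^ 2 := by nlinarith
  have hr2 : r ^ 2 = 4 / (4 - ε ^ 2) := Real.sq_sqrt (by positivity)
  have hr2' : r ^ 2 * (4 - ε ^ 2) = 4 := by rw [hr2]; field_simp
  have hr0 : 0 ≤ r := Real.sqrt_nonneg _
  have hr1 : 1 < r := by
    have : 1 < r ^ 2 := by
      rw [hr2, lt_div_iff₀ h4]; nlinarith
    nlinarith
  refine ⟨r, ?_⟩
  -- `x = v (1/r + i ε/2)`, `y = v (-i)`
  let z : ℂ := ⟨1 / r, ε / 2⟩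
  let w : ℂ := ⟨0, -1⟩
  have hzn : ‖z‖ = 1 := by
    have h1 : ‖z‖ ^ 2 = 1 := by
      rw [← Complex.normSq_eq_norm_sq, Complex.normSq_apply]
      change 1 / r * (1 / r) + ε / 2 * (ε / 2) = 1
      have h2 : 1 / r * (1 / r) = 1 / r ^ 2 := by field_simp
      rw [h2, hr2]
      field_simp
      ring
    exact (pow_eq_one_iff_of_nonneg (norm_nonneg _) two_ne_zero).1 h1
  have hxn : ‖v r z‖ = 1 := by
    rw [norm_v r hr0, hzn]
    have : r * |z.re| = 1 := by
      change r * |1 / r| = 1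
      rw [abs_of_pos (by positivity)]
      field_simp
    rw [this, max_self]
  have hwn : ‖w‖ = 1 := by
    have h1 : ‖w‖ ^ 2 = 1 := by
      rw [← Complex.normSq_eq_norm_sq, Complex.normSq_apply]
      change (0 : ℝ) * 0 + -1 * -1 = 1
      norm_num
    exact (pow_eq_one_iff_of_nonneg (norm_nonneg _) two_ne_zero).1 h1
  have hyn : ‖v r w‖ = 1 := by
    rw [norm_v r hr0, hwn]
    change max (r * |0|) 1 = 1
    simp
  have horth : QuasiOrth (v r w) (v r z) := by
    let p : V r →L[ℝ] ℝ := (ContinuousLinearMap.fst ℝ ℝ ℂ).comp (LinearMap.range (T r)).subtypeL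
    have hp : ∀ u : ℂ, p (v r u) = r * u.re := fun u => rfl
    have hpx : p (v r z) = 1 := by
      rw [hp]
      change r * (1 / r) = 1
      field_simp
    refine ⟨p, ?_, hpx, ?_⟩
    · apply le_antisymm
      · refine ContinuousLinearMap.opNorm_le_bound _ zero_le_one fun u => ?_
        rw [one_mul]
        exact norm_fst_le (u : ℝ × ℂ)
      · have := p.le_opNorm (v r z)
        rwa [hpx, hxn, mul_one, norm_one] at this
    · rw [hp]
      change r * 0 = 0
      ring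
  have h1 : zetaMinus (V r) ε ≤ 1 := by
    refine (zetaMinus_le ε _ _ hxn hyn horth).trans ?_
    rw [v_smul, v_add, norm_v r hr0]
    have hre : (z + ε • w).re = 1 / r := by
      simp only [Complex.add_re, Complex.real_smul, Complex.re_ofReal_mul]
      change 1 / r + ε * 0 = 1 / r
      ring
    have him : (z + ε • w).im = -(ε / 2) := by
      simp only [Complex.add_im, Complex.real_smul, Complex.im_ofReal_mul]
      change ε / 2 + ε * (-1) = -(ε / 2)
      ring
    have hn : ‖z + ε • w‖ = 1 := by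
      have h1 : ‖z + ε • w‖ ^ 2 = 1 := by
        have h2 : ‖z‖ ^ 2 = 1 := by rw [hzn]; norm_num
        rw [← Complex.normSq_eq_norm_sq, Complex.normSq_apply] at h2 ⊢
        rw [hre, him]
        change 1 / r * (1 / r) + ε / 2 * (ε / 2) = 1 at h2
        linarith
      exact (pow_eq_one_iff_of_nonneg (norm_nonneg _) two_ne_zero).1 h1
    rw [hre, hn, abs_of_pos (by positivity)]
    have : r * (1 / r) = 1 := by field_simp
    rw [this, max_self]
  have hcond : r ^ 2 - 1 < r ^ 2 * ε ^ 2 := by nlinarith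
  have h2 : 0 < betaMinus (V r) ε := by
    -- compactness
    have hK : IsCompact ((Metric.sphere (0 : V r) 1) ×ˢ (Metric.sphere (0 : V r) 1)) :=
      (isCompact_sphere _ _).prod (isCompact_sphere _ _)
    have hne : ((Metric.sphere (0 : V r) 1) ×ˢ (Metric.sphere (0 : V r) 1)).Nonempty :=
      ⟨(v r z, v r w), by simpa using ⟨hxn, hyn⟩⟩
    have hcont : ContinuousOn (fun q : V r × V r => max ‖q.1 + ε • q.2‖ ‖q.1 - ε • q.2‖ - 1)
        ((Metric.sphere (0 : V r) 1) ×ˢ (Metric.sphere (0 : V r) 1)) := by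
      apply Continuous.continuousOn
      fun_prop
    obtain ⟨⟨x, y⟩, hxy, hmin⟩ := hK.exists_isMinOn hne hcont
    have hx : ‖x‖ = 1 := by simpa using hxy.1
    have hy : ‖y‖ = 1 := by simpa using hxy.2
    have h3 := no_segment r ε hr1 hε hcond x y hx hy
    have h4 : max ‖x + ε • y‖ ‖x - ε • y‖ - 1 ≤ betaMinus (V r) ε := by
      apply le_csInf
      · exact ⟨_, x, y, hx, hy, rfl⟩
      · rintro t ⟨x', y', hx', hy', rfl⟩
        exact hmin (show (x', y') ∈ _ from ⟨by simpa using hx', by simpa using hy'⟩)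
    linarith
  linarith

end small

/-- **Disproof of Q1, for every `ε > 0`**: for every `ε > 0` there is a two-dimensional real normed
space `X` with `ζ⁻_X(ε) - 1 < β⁻_X(ε)`; in particular the two equalities of Q1 do not both hold. -/
theorem result (ε : ℝ) (hε : 0 < ε) :
    ∃ (X : Type) (_ : NormedAddCommGroup X) (_ : NormedSpace ℝ X) (_ : CompleteSpace X),
      Module.finrank ℝ X = 2 ∧ zetaMinus X ε - 1 < betaMinus X ε ∧
      ¬ (zetaMinus X ε - 1 = betaMinus X ε ∧ zetaPlus X ε - 1 = betaPlus X ε) := by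
  rcases le_or_gt ε 1 with h | h
  · obtain ⟨r, hr⟩ := small ε hε h
    exact ⟨V r, inferInstance, inferInstance, inferInstance, finrank_V r, hr,
      fun h' => hr.ne h'.1⟩
  · exact ⟨ℝ × ℝ, inferInstance, inferInstance, inferInstance, by simp, large ε h,
      fun h' => (large ε h).ne h'.1⟩

end Pool.Agent.Results.MP_4f9fa7_an.LowerModulusFails
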